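import Pool.Agent.W525.CB.Stm

/-! Project CB (MP_99f32e_ag), VBIG: volume forms, transposition of two indices `≥ 3`. -/

namespace Pool.Agent.W924.CB

open Pool.Agent.W525.CB

theorem swap_ss {m : ℕ} (i j a : Fin m) :
    Equiv.swap i.succ j.succ a.succ = (Equiv.swap i j a).succ := by
  by_cases h1 : a = i
  · subst h1
    rw [Equiv.swap_apply_left, Equiv.swap_apply_left]
  · by_cases h2 : a = j
    · subst h2
      rw [Equiv.swap_apply_right, Equiv.swap_apply_right]
    · rw [Equiv.swap_apply_of_ne_of_ne h1 h2, Equiv.swap_apply_of_ne_of_ne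
        (fun h => h1 (Fin.succ_injective _ h)) (fun h => h2 (Fin.succ_injective _ h))]

theorem main : S_VBIG := by
  intro n i j _ L _ _ _ x y _ _ σ A
  obtain ⟨τ, hτ⟩ : ∃ τ : Equiv.Perm (Fin (n + 3)),
      τ = Equiv.swap i.succ.succ.succ j.succ.succ.succ := ⟨_, rfl⟩
  rw [← hτ]
  have t0 : τ 0 = 0 := by
    rw [hτ]
    exact Equiv.swap_apply_of_ne_of_ne (Fin.succ_ne_zero _).symm (Fin.succ_ne_zero _).symm
  have t1 : τ 1 = 1 := by
    rw [hτ]
    have h : ∀ k : Fin n, (1 : Fin (n + 3)) ≠ k.succ.succ.succ := by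
      intro k h
      have := congrArg Fin.val h
      simp at this
    exact Equiv.swap_apply_of_ne_of_ne (h i) (h j)
  have t2 : τ 2 = 2 := by
    rw [hτ]
    have h : ∀ k : Fin n, (2 : Fin (n + 3)) ≠ k.succ.succ.succ := by
      intro k h
      have h1 := congrArg Fin.val h
      have h2 : ((2 : Fin (n + 3)) : ℕ) = 2 := by
        show 2 % (n + 3) = 2
        exact Nat.mod_eq_of_lt (by omega)
      rw [h2] at h1
      simp only [Fin.val_succ] at h1
      omega
    exact Equiv.swap_apply_of_ne_of_ne (h i) (h j)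
  have m0 : (σ * τ) 0 = σ 0 := by rw [Equiv.Perm.mul_apply, t0]
  have m1 : (σ * τ) 1 = σ 1 := by rw [Equiv.Perm.mul_apply, t1]
  have hss : ∀ a, ss x (σ * τ) a = ss x σ (τ a) := by
    intro a
    unfold ss
    rw [m0, Equiv.Perm.mul_apply]
  have htt : ∀ a, tt x y (σ * τ) a = tt x y σ (τ a) := by
    intro a
    unfold tt
    rw [m0, m1, Equiv.Perm.mul_apply]
  have hww : ww x y (σ * τ) 2 = ww x y σ 2 := by
    unfold ww
    rw [hss, hss, htt, t2, t1]
  have e3 : ∀ a : Fin n, τ a.succ.succ.succ = (Equiv.swap i j a).succ.succ.succ := by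
    intro a
    rw [hτ, swap_ss, swap_ss, swap_ss]
  have e2 : ∀ a : Fin (n + 1), τ a.succ.succ = (Equiv.swap i.succ j.succ a).succ.succ := by
    intro a
    rw [hτ, swap_ss, swap_ss]
  have hc : cfam x y (σ * τ) = cfam x y σ ∘
      (Equiv.sumCongr (Equiv.swap i.succ j.succ) (Equiv.swap i j) :
        Equiv.Perm (Fin (n + 1) ⊕ Fin n)) := by
    funext a
    rcases a with a | a
    · show KaehlerDifferential.D ℤ L (tt x y (σ * τ) a.succ.succ) =
        KaehlerDifferential.D ℤ L (tt x y σ (Equiv.swap i.succ j.succ a).succ.succ)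
      rw [htt, e2]
    · show KaehlerDifferential.D ℤ L (ss x (σ * τ) a.succ.succ.succ) =
        KaehlerDifferential.D ℤ L (ss x σ (Equiv.swap i j a).succ.succ.succ)
      rw [hss, e3]
  rw [hc, hww, m0, AlternatingMap.map_perm]
  unfold EqPM
  rcases Int.units_eq_one_or (Equiv.Perm.sign
    (Equiv.sumCongr (Equiv.swap i.succ j.succ) (Equiv.swap i j) :
        Equiv.Perm (Fin (n + 1) ⊕ Fin n))) with h | h
  · left
    rw [h, one_smul]
  · right
    rw [h, Units.neg_smul, one_smul, neg_mul]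

end Pool.Agent.W924.CB
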